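import Pool.Agent.Helper98_AT2.Asm2
import Pool.Agent.Helper13_AT5.OMF
import Pool.Agent.Helper15_AT5.KBF
import Pool.Agent.Helper16_AT5.TA5
import Pool.Agent.Helper17_AT5.VJ5
import Pool.Agent.Helper18_AT5.LNB
import Pool.Agent.Helper18_AT5.ZPT
import Pool.Agent.Helper23_AT5.DV5
import Pool.Agent.Helper23_AT5.DZ5
import Pool.Agent.Helper23_AT5.NZM
import Pool.Agent.Helper23_AT5.TS5
import Pool.Agent.Helper24_AT5.INQ
import Pool.Agent.Helper31_AT5.TY5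
import Pool.Agent.Helper32_AT5.CYS
import Pool.Agent.Helper32_AT5.ZIM
import Pool.Agent.Helper35_AT5.KSP
import Pool.Agent.Helper39_AT5.DEG
import Pool.Agent.Helper39_AT5.INC
import Pool.Agent.Helper41_AT5.CHR
import Pool.Agent.Helper43_AT5.FN5
import Pool.Agent.Helper43_AT5.T5A
import Pool.Agent.Helper45_AT5.KER
import Pool.Agent.Helper46_AT5.FX5
import Pool.Agent.Helper48_AT5.CO3
import Pool.Agent.Helper48_AT5.TWT
import Pool.Agent.Helper48_AT5.TWY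
import Pool.Agent.Helper56_AT5.FS5
import Pool.Agent.Helper56_AT5.NZ5
import Pool.Agent.Helper60_AT5.PR5
import Pool.Agent.Helper62_AT5.QTP
import Pool.Agent.Helper6_AT5.BS5
import Pool.Agent.Helper6_AT5.OJ5
import Pool.Agent.Helper70_AT5.TB5
import Pool.Agent.Helper72_AT5.LB5
import Pool.Agent.Helper76_AT5.Kin
import Pool.Agent.Helper77_AT5.LBX
import Pool.Agent.Helper81_AT5.SEI
import Pool.Agent.Helper82_AT5.NCL
import Pool.Agent.Helper83_AT5.IX5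
import Pool.Agent.Helper86_AT5.ORS
import Pool.Agent.Helper89_AT5.CO5
import Pool.Agent.Helper92_AT5.GL5
import Pool.Agent.Helper92_AT5.TX5
import Pool.Agent.Helper92_AT5.UO5

/-!
# Squad AT5: the statements, closed

Theorem T5 and its rows, with all their hypotheses discharged.
-/

noncomputable section

namespace Pool.Agent.PP.T5

open Pool.Agent.PP

theorem ors_ : OrsStmt := H86.ors
theorem inc_ : IncStmt := H39.inc ors_
theorem ix5_ : Ix5Stmt := H83.ix5 ors_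
theorem pr5_ : Pr5Stmt := H60.pr5
theorem ker_ : KerStmt := H45.ker
theorem co5_ : Co5Stmt := H89.co5 ker_
theorem co3_ : Co3Stmt := H48.co3 ker_
theorem lbx_ : LbxStmt := H77.lbx
theorem vj5_ : Vj5Stmt := H17.vj5 ker_
theorem oj5_ : Oj5Stmt := H6.oj5 co5_ inc_
theorem bs5_ : Bs5Stmt := H6.bs5 oj5_ co3_ vj5_ T3.bes_ T3.lrk_
theorem zim_ : ZimStmt := H32.zim
theorem deg_ : DegStmt := H39.deg K9.H69.fmg
theorem sei_ : SeiStmt := H81.sei K9.ada_ K9.H27.prt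
theorem inq_ : InqStmt := H24.inq sei_ zim_ deg_
theorem nz5_ : Nz5Stmt := H56.nz5 ix5_ K9.H69.fmg K9.H19.omg
theorem nzm_ : NzmStmt := H23.nzm sei_ K9.wbo_
theorem kbf_ : KbfStmt := H15.kbf nzm_ inq_
theorem lnb_ : LnbStmt := H18.lnb T3.psg_ kbf_ lbx_ K9.H02.pug K9.H3.lbd
theorem gl5_ : Gl5Stmt := H92.gl5 inq_ nz5_ lbx_
theorem twt_ : TwtStmt := H48.twt T3.lrk_
theorem twy_ : TwyStmt := H48.twy T3.smg_ co3_
theorem ncl_ : NclStmt := H82.ncl (PP.H74.brt PP.H20.ibf PP.H20.ibc PP.H20.ibj PP.H20.ibn)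
  K9.H3.rnk_ PP.H20.eig
theorem cys_ : CysStmt := H32.cys twt_ ncl_
theorem fx5_ : Fx5Stmt := H46.fx5 T2.fxy_ T3.lrk_ twy_ cys_
theorem lb5_ : Lb5Stmt := H72.lb5 pr5_ lbx_ gl5_ bs5_ lnb_ fx5_
theorem omf_ : OmfStmt := H13.omf
theorem chr_ : ChrStmt := H41.chr omf_
theorem cyq_ : CyqStmt := H41.cyq
theorem kin_ : KinStmt := H76.kin
theorem zpt_ : ZptStmt := H18Z.zpt T3.psg_ K9.H02.pug K9.dzo_
theorem ksp_ : KspStmt := H35.ksp omf_
theorem fs5_ : Fs5Stmt := H56.fs5 chr_ zpt_ ksp_ K9.H69.fmg K9.dun_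
theorem uo5_ : Uo5Stmt := H92.uo5 chr_ zpt_ ksp_
theorem qtp_ : QtpStmt := H62.qtp K9.H02.pug K9.H69.fmg
theorem ty5_ : Ty5Stmt := H31.ty5 omf_ ksp_ zpt_ qtp_ cyq_
theorem ta5_ : Ta5Stmt := H16.ta5
theorem tb5_ : Tb5Stmt := H70.tb5 T2.frs_
theorem tx5_ : Tx5Stmt := H92.tx5 omf_ ksp_ zpt_ qtp_ cyq_
theorem ts5_ : Ts5Stmt := H23.ts5 tb5_
theorem dv5_ : Dv5Stmt := H23.dv5
theorem t5a_ : T5aStmt := H43.t5a kin_ fs5_ uo5_ ta5_ ty5_ tx5_ ts5_ lb5_ dv5_ omf_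
theorem dz5_ : Dz5Stmt := H23.dz5 T3.psg_
theorem fn5_ : Fn5Stmt := H43.fn5 t5a_ dz5_

end Pool.Agent.PP.T5
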